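import Pool.Agent.TH38.RK.Stmts2

/-! Commensurators of infinite cyclic subgroups (helper914 for helper38). -/

set_option autoImplicit false

namespace Pool.Agent.TH914.RK

open Pool.Agent.TH38.RK

variable {G : Type} [Group G]

/-- a power of every element of the commensurator is a power of `g` -/
theorem com_pow (h : HypLike G) {g x : G} (hg : ¬ IsOfFinOrder g) (hx : x ∈ Com g) :
    ∃ (n : ℕ) (m : ℤ), 0 < n ∧ x ^ n = g ^ m := by
  obtain ⟨n, hn, -, hmem⟩ := Subgroup.exists_pow_mem_of_relIndex_ne_zero (h.2.1 g hg) hx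
  obtain ⟨m, hm⟩ := Subgroup.mem_zpowers_iff.1 hmem.1
  exact ⟨n, m, hn, hm.symm⟩

theorem com_pow' (h : HypLike G) {g x : G} (hg : ¬ IsOfFinOrder g) (hx : x ∈ Com g)
    (hxo : ¬ IsOfFinOrder x) : ∃ (n : ℕ) (m : ℤ), 0 < n ∧ m ≠ 0 ∧ x ^ n = g ^ m := by
  obtain ⟨n, m, hn, hm⟩ := com_pow h hg hx
  refine ⟨n, m, hn, ?_, hm⟩
  rintro rfl
  rw [zpow_zero] at hm
  exact hxo (isOfFinOrder_iff_pow_eq_one.2 ⟨n, hn, hm⟩)

theorem com_of_comm {g y : G} (h : y * g = g * y) : y ∈ Com g :=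
  ⟨1, 1, one_ne_zero, one_ne_zero, by rw [zpow_one, h, mul_inv_cancel_right]⟩

theorem inf_conj {g : G} (v : G) (hg : ¬ IsOfFinOrder g) : ¬ IsOfFinOrder (v * g * v⁻¹) := by
  intro h
  obtain ⟨n, hn, h1⟩ := isOfFinOrder_iff_pow_eq_one.1 h
  apply hg
  rw [conj_pow] at h1
  exact isOfFinOrder_iff_pow_eq_one.2 ⟨n, hn, by
    have h2 := mul_inv_eq_one.1 h1
    exact mul_eq_left.1 h2⟩

theorem com_of_conj (h : HypLike G) {g x : G} (hg : ¬ IsOfFinOrder g)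
    (hx : x * g * x⁻¹ ∈ Com g) : x ∈ Com g := by
  obtain ⟨n, m, hn, hm, e⟩ := com_pow' h hg hx (inf_conj x hg)
  refine ⟨n, m, by exact_mod_cast hn.ne', hm, ?_⟩
  rw [zpow_natCast, ← conj_pow, e]

theorem com_ne_top (h : HypLike G) {g : G} (hg : ¬ IsOfFinOrder g) : Com g ≠ ⊤ := by
  intro ht
  apply h.2.1 g hg
  rw [ht, Subgroup.relIndex_top_right]
  exact h.2.2.1 g

/-- there is an element of infinite order -/
theorem exists_inf (h : HypLike G) : ∃ g : G, ¬ IsOfFinOrder g := by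
  obtain ⟨g, -, hg⟩ := h.2.2.2 ⊤ inferInstance (by
    intro ht
    have h1 := h.2.2.1 (1 : G)
    rw [Subgroup.zpowers_one_eq_bot, ← ht, Subgroup.index_top] at h1
    exact one_ne_zero h1)
  exact ⟨g, hg⟩

end Pool.Agent.TH914.RK
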